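import Pool.Agent.Helper58.DH.Goals2

/-!
# Packet F_SYM of project DH (MP_06d934_gt)
-/

set_option autoImplicit false

namespace Pool.Agent.Helper86.DH

open Pool.Agent.Helper58.DH

/-- The permutation `(2 3)(4 5)` as a function. -/
def pif : Fin 6 → Fin 6 := ![0, 1, 3, 2, 5, 4]

lemma pif_pif (k : Fin 6) : pif (pif k) = k := by
  revert k
  decide

/-- The permutation `(2 3)(4 5)`. -/
def piE : Fin 6 ≃ Fin 6 := ⟨pif, pif, pif_pif, pif_pif⟩

lemma s2_eq (w : Fin 6 → ℝ) (k : Fin 6) : s2 w k = w (pif k) := by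
  fin_cases k <;> rfl

lemma s2_s2 (w : Fin 6 → ℝ) : s2 (s2 w) = w := by
  funext k
  rw [s2_eq, s2_eq, pif_pif]

lemma s2_inj : Function.Injective s2 := fun a b h => by
  rw [← s2_s2 a, ← s2_s2 b, h]

lemma dF_pi (ε p q m : ℝ) (k : Fin 6) : dF ε p q m (pif k) = dF ε q p m k := by
  fin_cases k <;> simp [dF, pif] <;> ring

lemma ind_pi (a b c i j k : Fin 6) :
    ind a b c (pif i) (pif j) (pif k) = ind (pif a) (pif b) (pif c) i j k := by
  have h : (({pif i, pif j, pif k} : Multiset (Fin 6)) = {a, b, c}) ↔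
      (({i, j, k} : Multiset (Fin 6)) = {pif a, pif b, pif c}) := by
    constructor
    · intro h
      have h2 := congrArg (Multiset.map pif) h
      simpa [pif_pif] using h2
    · intro h
      have h2 := congrArg (Multiset.map pif) h
      simpa [pif_pif] using h2
  unfold ind
  by_cases h1 : ({i, j, k} : Multiset (Fin 6)) = {pif a, pif b, pif c}
  · rw [if_pos h1, if_pos (h.2 h1)]
  · rw [if_neg h1, if_neg (fun h2 => h1 (h.1 h2))]

lemma ind_swap (a b c i j k : Fin 6) : ind a b c i j k = ind a c b i j k := by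
  unfold ind
  have h : ({a, b, c} : Multiset (Fin 6)) = {a, c, b} := by
    have : ({b, c} : Multiset (Fin 6)) = {c, b} := Multiset.pair_comm b c
    exact congrArg (Multiset.cons a) this
  rw [h]

lemma AF_pi (ε p q m : ℝ) (i j k : Fin 6) :
    AF ε p q m (pif i) (pif j) (pif k) = AF ε q p m i j k := by
  unfold AF
  simp only [ind_pi]
  have e0 : pif 0 = 0 := rfl
  have e1 : pif 1 = 1 := rfl
  have e2 : pif 2 = 3 := rfl
  have e3 : pif 3 = 2 := rfl
  have e4 : pif 4 = 5 := rfl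
  have e5 : pif 5 = 4 := rfl
  rw [e0, e1, e2, e3, e4, e5, ind_swap 0 5 4, ind_swap 1 5 4]
  congr 1
  · ring
  · ring

lemma ric_pi (ε p q m : ℝ) (x : Fin 6 → ℝ) (k : Fin 6) :
    ric (dF ε p q m) (AF ε p q m) x (pif k) = ric (dF ε q p m) (AF ε q p m) (s2 x) k := by
  unfold ric
  rw [← Equiv.sum_comp piE (fun i => ∑ j, AF ε p q m i j (pif k) *
    (x (pif k) / (x i * x j) - x i / (x j * x (pif k)) - x j / (x i * x (pif k))))]
  have h : ∀ i : Fin 6, ∑ j, AF ε p q m (piE i) j (pif k) *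
      (x (pif k) / (x (piE i) * x j) - x (piE i) / (x j * x (pif k)) -
        x j / (x (piE i) * x (pif k))) =
      ∑ j, AF ε q p m i j k * (s2 x k / (s2 x i * s2 x j) - s2 x i / (s2 x j * s2 x k) -
        s2 x j / (s2 x i * s2 x k)) := by
    intro i
    rw [← Equiv.sum_comp piE (fun j => AF ε p q m (piE i) j (pif k) *
      (x (pif k) / (x (piE i) * x j) - x (piE i) / (x j * x (pif k)) -
        x j / (x (piE i) * x (pif k))))]
    refine Finset.sum_congr rfl fun j _ => ?_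
    have hi : piE i = pif i := rfl
    have hj : piE j = pif j := rfl
    rw [hi, hj, AF_pi, s2_eq, s2_eq, s2_eq]
  rw [Finset.sum_congr rfl fun i _ => h i, dF_pi, s2_eq x k]

lemma KC_s2 {x : Fin 6 → ℝ} (h : KC x) : KC (s2 x) := by
  obtain ⟨h, k, hx⟩ := h
  refine ⟨k, h, ?_⟩
  rw [hx, abs_sub_comm k h, add_comm k h]
  rfl

lemma s2_line (x w : Fin 6 → ℝ) (s : ℝ) : s2 (x + s • w) = s2 x + s • s2 w := by
  funext k
  simp only [s2_eq, Pi.add_apply, Pi.smul_apply]

lemma good_iff (ε p q m : ℝ) (x : Fin 6 → ℝ) :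
    ((∀ i, 0 < x i) ∧ ∀ k, ric (dF ε p q m) (AF ε p q m) x k = 1 / 2) ↔
    ((∀ i, 0 < s2 x i) ∧ ∀ k, ric (dF ε q p m) (AF ε q p m) (s2 x) k = 1 / 2) := by
  constructor
  · rintro ⟨h1, h2⟩
    refine ⟨fun i => by rw [s2_eq]; exact h1 _, fun k => ?_⟩
    rw [← ric_pi]
    exact h2 _
  · rintro ⟨h1, h2⟩
    refine ⟨fun i => ?_, fun k => ?_⟩
    · have := h1 (pif i)
      rwa [s2_eq, pif_pif] at this
    · have := h2 (pif k)
      rwa [← ric_pi, pif_pif] at this

lemma nondeg_s2 {ε p q m : ℝ} {x : Fin 6 → ℝ}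
    (h : NonDegC (dF ε q p m) (AF ε q p m) (s2 x)) :
    NonDegC (dF ε p q m) (AF ε p q m) x := by
  intro w hw
  have h1 : s2 w = 0 := by
    apply h
    intro k
    have h2 : (fun s : ℝ => ric (dF ε q p m) (AF ε q p m) (s2 x + s • s2 w) k) =
        fun s : ℝ => ric (dF ε p q m) (AF ε p q m) (x + s • w) (pif k) := by
      funext s
      rw [ric_pi, s2_line]
    rw [h2]
    exact hw (pif k)
  have h3 : s2 (s2 w) = s2 0 := by rw [h1]
  rw [s2_s2] at h3
  rw [h3]
  funext k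
  rw [s2_eq]
  rfl

theorem f_sym : Pool.Agent.Helper58.DH.F_SYM := by
  classical
  rintro ε p q m ⟨⟨x, hx1, hx2, hx3⟩, hZ⟩
  constructor
  · obtain ⟨h1, h2⟩ := (good_iff ε p q m x).1 ⟨hx1, hx2⟩
    refine ⟨s2 x, h1, h2, fun h => hx3 ?_⟩
    have := KC_s2 h
    rwa [s2_s2] at this
  · intro Z hZ1 hZ2
    have hmem : ∀ x, x ∈ Z.image s2 ↔ s2 x ∈ Z := by
      intro x
      rw [Finset.mem_image]
      constructor
      · rintro ⟨y, hy, rfl⟩
        rwa [s2_s2]
      · intro h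
        exact ⟨s2 x, h, s2_s2 x⟩
    obtain ⟨Y, hY1, hY2, hY3⟩ := hZ (Z.image s2) (fun x => by
        rw [hmem, hZ1, good_iff ε p q m x])
      (fun x hx => nondeg_s2 (hZ2 _ ((hmem x).1 hx)))
    refine ⟨Y.image s2, ?_, ?_, ?_⟩
    · intro x hx
      obtain ⟨y, hy, rfl⟩ := Finset.mem_image.1 hx
      exact (hmem y).1 (hY1 hy)
    · rw [Finset.card_image_of_injective _ s2_inj]
      exact hY2
    · intro x hx hk
      obtain ⟨y, hy, rfl⟩ := Finset.mem_image.1 hx
      apply hY3 y hy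
      have := KC_s2 hk
      rwa [s2_s2] at this

end Pool.Agent.Helper86.DH
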