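import Pool.Agent.Helper58.DH.Goals

/-!
# Packet N_NON of project DH (MP_06d934_gt)
-/

set_option autoImplicit false

namespace Pool.Agent.Helper86.DH

open Pool.Agent.Helper58.DH

lemma cs_mul {x y z : ℝ} (hx : 0 < x) (hy : 0 < y) :
    cs x y z * (2 * x * y) = x ^ 2 + y ^ 2 - z ^ 2 := by
  unfold cs
  have h : 2 * x * y ≠ 0 := by positivity
  field_simp

lemma cs_comm (x y z : ℝ) : cs x y z = cs y x z := by
  unfold cs
  congr 1 <;> ring

/-- The equations in six real variables. -/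
def EqA (P Q M E B a b u v s t : ℝ) : Prop :=
  a = 1 - (P + E) * cs b u a - (Q + E) * cs b v a - M * cs s t a ∧
  b = 1 - (P + E) * cs a u b - (Q + E) * cs a v b - M * cs s t b ∧
  u = B - 2 * Q * cs a b u - M * cs s s u ∧
  v = B - 2 * P * cs a b v - M * cs t t v ∧
  s = 1 - (P + E) * cs u s s - Q * (cs t b s + cs t a s) ∧
  t = 1 - (Q + E) * cs v t t - P * (cs s b t + cs s a t)

lemma EqA.swap1 {P Q M E B a b u v s t : ℝ} (h : EqA P Q M E B a b u v s t) :
    EqA P Q M E B b a u v s t := by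
  obtain ⟨h0, h1, h2, h3, h4, h5⟩ := h
  refine ⟨h1, h0, ?_, ?_, ?_, ?_⟩
  · rw [cs_comm b a u]; exact h2
  · rw [cs_comm b a v]; exact h3
  · rw [add_comm (cs t a s)]; exact h4
  · rw [add_comm (cs s a t)]; exact h5

lemma EqA.swap2 {P Q M E B a b u v s t : ℝ} (h : EqA P Q M E B a b u v s t) :
    EqA Q P M E B a b v u t s := by
  obtain ⟨h0, h1, h2, h3, h4, h5⟩ := h
  refine ⟨?_, ?_, h3, h2, h5, h4⟩
  · rw [cs_comm t s a]; linarith
  · rw [cs_comm t s b]; linarith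

lemma st1 {α Q s t a b u X6 X7 X8 : ℝ} (hQ : 0 < Q) (hα : 0 < α)
    (ha : 0 < a) (hb : 0 < b) (hu : 0 < u) (hs : 0 < s) (ht : 0 < t)
    (e4 : s = 1 - α * X6 - Q * (X7 + X8)) (hst : s ≤ t)
    (c7 : X6 * (2 * u * s) = u ^ 2 + s ^ 2 - s ^ 2)
    (c8 : X7 * (2 * t * b) = t ^ 2 + b ^ 2 - s ^ 2)
    (c9 : X8 * (2 * t * a) = t ^ 2 + a ^ 2 - s ^ 2) :
    Q * (a + b) < 2 * t ∧ Q * (t ^ 2 - s ^ 2) < 2 * t * b ∧ α * u ≤ 1 / 2 := by
  have hst2 : s ^ 2 ≤ t ^ 2 := pow_le_pow_left₀ hs.le hst 2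
  have x6 : X6 * (2 * s) = u := by
    have : (X6 * (2 * s)) * u = u * u := by linarith
    exact mul_right_cancel₀ hu.ne' this
  have x6p : 0 < X6 := by
    have h : 0 < X6 * (2 * s) := by rw [x6]; exact hu
    exact pos_of_mul_pos_left h (by positivity)
  have x7a : b ≤ X7 * (2 * t) := by
    have : b * b ≤ (X7 * (2 * t)) * b := by linarith
    exact le_of_mul_le_mul_right this hb
  have x8a : a ≤ X8 * (2 * t) := by
    have : a * a ≤ (X8 * (2 * t)) * a := by linarith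
    exact le_of_mul_le_mul_right this ha
  have x7p : 0 < X7 := pos_of_mul_pos_left (lt_of_lt_of_le hb x7a) (by positivity)
  have x8p : 0 < X8 := pos_of_mul_pos_left (lt_of_lt_of_le ha x8a) (by positivity)
  have p6 : 0 < α * X6 := mul_pos hα x6p
  have p7 : 0 < Q * X7 := mul_pos hQ x7p
  have p8 : 0 < Q * X8 := mul_pos hQ x8p
  have q78 : Q * (X7 + X8) < 1 := by linarith
  have q7 : Q * X7 < 1 := by linarith
  refine ⟨?_, ?_, ?_⟩
  · have h1 : Q * (a + b) ≤ Q * (X8 * (2 * t) + X7 * (2 * t)) :=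
      mul_le_mul_of_nonneg_left (by linarith) hQ.le
    have h2 : (Q * (X7 + X8)) * (2 * t) < 1 * (2 * t) :=
      mul_lt_mul_of_pos_right q78 (by positivity)
    linarith
  · have h1 : Q * (t ^ 2 - s ^ 2) ≤ Q * (X7 * (2 * t * b)) :=
      mul_le_mul_of_nonneg_left (by linarith [sq_nonneg b]) hQ.le
    have h2 : (Q * X7) * (2 * t * b) < 1 * (2 * t * b) :=
      mul_lt_mul_of_pos_right q7 (by positivity)
    linarith
  · have h2 : α * u = (α * X6) * (2 * s) := by rw [← x6]; ring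
    have h3 : (α * X6) * (2 * s) ≤ (1 - s) * (2 * s) :=
      mul_le_mul_of_nonneg_right (by linarith) (by positivity)
    linarith [sq_nonneg (2 * s - 1)]

lemma st2 {α Q M B L a b u s c X4 : ℝ} (hQ : 0 < Q) (hM : 0 < M) (hα : 0 < α)
    (ha : 0 < a) (hb : 0 < b) (hu : 0 < u) (hs : 0 < s)
    (e2 : u = B - 2 * Q * c - M * X4)
    (hL : L * (2 * Q) = B - 1 / (2 * α) - M) (hL2 : 2 ≤ L)
    (c3 : c * (2 * a * b) = a ^ 2 + b ^ 2 - u ^ 2)
    (c4 : X4 * (2 * s * s) = s ^ 2 + s ^ 2 - u ^ 2) (hba : b ≤ a)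
    (hαu : α * u ≤ 1 / 2) : L ≤ c ∧ b * L < a ∧ u < a := by
  have hu2 : u ≤ 1 / (2 * α) := by
    rw [le_div_iff₀ (by positivity)]
    linarith
  have x4 : X4 ≤ 1 := by
    have h : X4 * (2 * s * s) ≤ 1 * (2 * s * s) := by linarith [sq_nonneg u]
    exact le_of_mul_le_mul_right h (by positivity)
  have hc : L ≤ c := by
    have h1 : M * X4 ≤ M * 1 := mul_le_mul_of_nonneg_left x4 hM.le
    have h2 : L * (2 * Q) ≤ c * (2 * Q) := by
      rw [hL]; linarith
    exact le_of_mul_le_mul_right h2 (by positivity)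
  have hbb : b * b ≤ a * a := mul_le_mul hba hba hb.le ha.le
  have hu3 : 0 < u ^ 2 := by positivity
  have hbc : b * c < a := by
    have h2 : (b * c) * (2 * a) < a * (2 * a) := by linarith
    exact lt_of_mul_lt_mul_right h2 (by positivity)
  have hbL : b * L < a := lt_of_le_of_lt (mul_le_mul_of_nonneg_left hc hb.le) hbc
  refine ⟨hc, hbL, ?_⟩
  have hac : a * 2 ≤ a * c := mul_le_mul_of_nonneg_left (by linarith) ha.le
  have h5 : b * b ≤ b * (a * c) := mul_le_mul_of_nonneg_left (by linarith) hb.le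
  have h6 : 0 < b * (a * c) := mul_pos hb (mul_pos ha (by linarith))
  have : u ^ 2 < a ^ 2 := by linarith
  exact lt_of_pow_lt_pow_left₀ 2 ha.le this

lemma st3 {Q L a b s t X3 : ℝ} (hQ : 0 < Q) (ha : 0 < a) (hb : 0 < b) (hs : 0 < s) (ht : 0 < t)
    (hL2 : 2 ≤ L) (hLQ : 8 ≤ L * Q ^ 2) (hst : s ≤ t)
    (c2 : X3 * (2 * s * t) = s ^ 2 + t ^ 2 - a ^ 2)
    (hab : Q * (a + b) < 2 * t) (hts : Q * (t ^ 2 - s ^ 2) < 2 * t * b)
    (hbL : b * L < a) : X3 ≤ 2 := by
  have hst2 : s ^ 2 ≤ t ^ 2 := pow_le_pow_left₀ hs.le hst 2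
  have hs2 : t ^ 2 < 2 * s ^ 2 := by
    have h1 : (b * L) * Q < 2 * t := by
      have h11 : (b * L) * Q ≤ a * Q := mul_le_mul_of_nonneg_right hbL.le hQ.le
      have h12 : 0 < Q * b := mul_pos hQ hb
      linarith
    have h2 : L * Q ^ 2 * (t ^ 2 - s ^ 2) < 4 * t ^ 2 := by
      have h21 : (L * Q) * (Q * (t ^ 2 - s ^ 2)) ≤ (L * Q) * (2 * t * b) :=
        mul_le_mul_of_nonneg_left hts.le (by positivity)
      have h22 : ((b * L) * Q) * (2 * t) < (2 * t) * (2 * t) :=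
        mul_lt_mul_of_pos_right h1 (by positivity)
      linarith
    have h3 : 8 * (t ^ 2 - s ^ 2) ≤ L * Q ^ 2 * (t ^ 2 - s ^ 2) :=
      mul_le_mul_of_nonneg_right hLQ (by linarith)
    linarith
  have h4 : s * s ≤ s * t := mul_le_mul_of_nonneg_left hst hs.le
  have h1 : X3 * (2 * s * t) ≤ 2 * (2 * s * t) := by linarith [sq_nonneg a]
  exact le_of_mul_le_mul_right h1 (by positivity)

lemma st4 {α L a b u c X1 : ℝ} (hα : 0 < α) (ha : 0 < a) (hb : 0 < b) (hu : 0 < u)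
    (hL2 : 2 ≤ L) (c0 : X1 * (2 * b * u) = b ^ 2 + u ^ 2 - a ^ 2)
    (c3 : c * (2 * a * b) = a ^ 2 + b ^ 2 - u ^ 2) (hba : b ≤ a) (hc : L ≤ c)
    (hua : u < a) (hαu : α * u ≤ 1 / 2) :
    α * (L - 1) / 2 + α ^ 2 * a * (L - 1) ≤ -(α * X1) := by
  have x1 : u * X1 = b - a * c := by
    have : (u * X1) * (2 * b) = (b - a * c) * (2 * b) := by linarith
    exact mul_right_cancel₀ (by positivity) this
  have hd : a * (L - 1) ≤ -(u * X1) := by
    have : a * L ≤ a * c := mul_le_mul_of_nonneg_left hc ha.le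
    rw [x1]; linarith
  have hd0 : 0 < a * (L - 1) := mul_pos ha (by linarith)
  have y1 : L - 1 ≤ -X1 := by
    have h0 : (L - 1) * u ≤ (L - 1) * a := mul_le_mul_of_nonneg_left hua.le (by linarith)
    have h1 : (L - 1) * u ≤ (-X1) * u := by linarith
    exact le_of_mul_le_mul_right h1 hu
  have y2 : 2 * α * a * (L - 1) ≤ -X1 := by
    have h1 : (2 * α * a * (L - 1)) * u ≤ (-X1) * u := by
      have h11 : (α * u) * (2 * (a * (L - 1))) ≤ (1 / 2) * (2 * (a * (L - 1))) :=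
        mul_le_mul_of_nonneg_right hαu (by linarith)
      linarith
    exact le_of_mul_le_mul_right h1 hu
  have h1 := mul_le_mul_of_nonneg_left y1 hα.le
  have h2 := mul_le_mul_of_nonneg_left y2 hα.le
  linarith

lemma st6 {P M B L a b v t c' X2 X5 : ℝ} (hP : 0 < P) (hM : 0 < M) (ha : 0 < a) (hb : 0 < b)
    (hv : 0 < v) (ht : 0 < t) (hBM : M ≤ B) (hL2 : 2 ≤ L)
    (e3 : v = B - 2 * P * c' - M * X5)
    (c1 : X2 * (2 * b * v) = b ^ 2 + v ^ 2 - a ^ 2)
    (c5 : c' * (2 * a * b) = a ^ 2 + b ^ 2 - v ^ 2)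
    (c6 : X5 * (2 * t * t) = t ^ 2 + t ^ 2 - v ^ 2) (hba : b ≤ a)
    (hbL : b * L < a) : X2 ≤ 1 + a / (2 * P) := by
  have x2 : v * X2 = b - a * c' := by
    have : (v * X2) * (2 * b) = (b - a * c') * (2 * b) := by linarith
    exact mul_right_cancel₀ (by positivity) this
  have hpa : 0 < a / (2 * P) := by positivity
  rcases le_or_gt 0 c' with hc' | hc'
  · rcases le_or_gt (b - a * c') 0 with h0 | h0
    · have : X2 ≤ 0 := by
        by_contra h
        push Not at h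
        have := mul_pos hv h
        linarith
      linarith
    · have h1 : 2 * b < a := by
        have : b * 2 ≤ b * L := mul_le_mul_of_nonneg_left hL2 hb.le
        linarith
      have h2 : b ^ 2 < v ^ 2 := by
        have h3 : b * (a * c') ≤ b * b := mul_le_mul_of_nonneg_left (by linarith) hb.le
        have h4 : (2 * b) * (2 * b) ≤ a * a :=
          mul_le_mul h1.le h1.le (by positivity) ha.le
        have h5 : 0 < b * b := mul_pos hb hb
        linarith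
      have h3 : b < v := lt_of_pow_lt_pow_left₀ 2 hv.le h2
      have h4 : X2 * v ≤ 1 * v := by
        have : 0 ≤ a * c' := mul_nonneg ha.le hc'
        linarith
      have h5 : X2 ≤ 1 := le_of_mul_le_mul_right h4 hv
      linarith
  · have h2 : a ^ 2 < v ^ 2 := by
      have h3 : 0 < (2 * a * b) * (-c') := mul_pos (by positivity) (by linarith)
      have h5 : 0 < b ^ 2 := by positivity
      linarith
    have h3 : a < v := lt_of_pow_lt_pow_left₀ 2 hv.le h2
    have x5 : X5 ≤ 1 := by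
      have h : X5 * (2 * t * t) ≤ 1 * (2 * t * t) := by linarith [sq_nonneg v]
      exact le_of_mul_le_mul_right h (by positivity)
    have h5 : -(2 * P * c') ≤ v := by
      have : M * X5 ≤ M * 1 := mul_le_mul_of_nonneg_left x5 hM.le
      linarith
    have h6 : -(a * c') ≤ a / (2 * P) * v := by
      rw [div_mul_eq_mul_div, le_div_iff₀ (by positivity)]
      have := mul_le_mul_of_nonneg_left h5 ha.le
      linarith
    have h7 : X2 * v ≤ (1 + a / (2 * P)) * v := by linarith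
    exact le_of_mul_le_mul_right h7 hv

lemma core {P Q M E B L a b u v s t : ℝ} (hP : 0 < P) (hQ : 0 < Q) (hM : 0 < M)
    (hα : 0 < P + E) (hβ : 0 < Q + E) (hsum : 2 * P + 2 * Q + M + 2 * E = 1)
    (hBM : M ≤ B) (hL : L * (2 * Q) = B - 1 / (2 * (P + E)) - M) (hL2 : 2 ≤ L)
    (hLQ : 8 ≤ L * Q ^ 2) (h3 : 1 + (Q + E) < (P + E) * (L - 1) / 2)
    (h4 : 1 + (Q + E) / (2 * P) < (P + E) ^ 2 * (L - 1))
    (ha : 0 < a) (hb : 0 < b) (hu : 0 < u) (hv : 0 < v) (hs : 0 < s) (ht : 0 < t)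
    (hw : EqA P Q M E B a b u v s t) (hba : b ≤ a) (hst : s ≤ t) : False := by
  obtain ⟨e0, e1, e2, e3, e4, e5⟩ := hw
  obtain ⟨hab, hts, hαu⟩ := st1 hQ hα ha hb hu hs ht e4 hst (cs_mul hu hs) (cs_mul ht hb)
    (cs_mul ht ha)
  obtain ⟨hc, hbL, hua⟩ := st2 hQ hM hα ha hb hu hs e2 hL hL2 (cs_mul ha hb) (cs_mul hs hs) hba hαu
  have x3 := st3 hQ ha hb hs ht hL2 hLQ hst (cs_mul hs ht) hab hts hbL
  have y3 := st4 hα ha hb hu hL2 (cs_mul hb hu) (cs_mul ha hb) hba hc hua hαu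
  have y5 := st6 hP hM ha hb hv ht hBM hL2 e3 (cs_mul hb hv) (cs_mul ha hb) (cs_mul ht ht) hba hbL
  clear e1 e2 e3 e4 e5 hc hab hts hαu hbL hua
  generalize cs b u a = X1 at *
  generalize cs b v a = X2 at *
  generalize cs s t a = X3 at *
  have hM1 : M < 1 := by linarith
  set α := P + E with hαd
  set β := Q + E with hβd
  have y4 : -1 - a + α * (L - 1) / 2 + α ^ 2 * a * (L - 1) ≤ β * X2 := by
    have h1 : M * X3 ≤ M * 2 := mul_le_mul_of_nonneg_left x3 hM.le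
    linarith
  have y6 : β * X2 ≤ β * (1 + a / (2 * P)) := mul_le_mul_of_nonneg_left y5 hβ.le
  have y7 : (1 + β / (2 * P)) * a < α ^ 2 * (L - 1) * a := mul_lt_mul_of_pos_right h4 ha
  have y8 : β * (1 + a / (2 * P)) = β + β / (2 * P) * a := by ring
  linarith

theorem n_non : Pool.Agent.Helper58.DH.N_NON := by
  intro P Q M E hP hQ hM hα hβ hsum
  set K : ℝ := 2 + 8 / Q ^ 2 + 8 / P ^ 2 + (2 * (1 + (Q + E)) / (P + E) + 2)
    + (2 * (1 + (P + E)) / (Q + E) + 2)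
    + ((1 + (Q + E) / (2 * P)) / (P + E) ^ 2 + 2)
    + ((1 + (P + E) / (2 * Q)) / (Q + E) ^ 2 + 2) with hK
  set B : ℝ := 1 + M + 1 / (2 * (P + E)) + 1 / (2 * (Q + E)) + 2 * Q * K + 2 * P * K with hB
  have k1 : 0 < 8 / Q ^ 2 := by positivity
  have k2 : 0 < 8 / P ^ 2 := by positivity
  have k3 : 0 < 2 * (1 + (Q + E)) / (P + E) := by positivity
  have k4 : 0 < 2 * (1 + (P + E)) / (Q + E) := by positivity
  have k5 : 0 < (1 + (Q + E) / (2 * P)) / (P + E) ^ 2 := by positivity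
  have k6 : 0 < (1 + (P + E) / (2 * Q)) / (Q + E) ^ 2 := by positivity
  have k7 : 0 < 1 / (2 * (P + E)) := by positivity
  have k8 : 0 < 1 / (2 * (Q + E)) := by positivity
  have hKp : 0 < K := by linarith
  have hQK : 0 < Q * K := mul_pos hQ hKp
  have hPK : 0 < P * K := mul_pos hP hKp
  have main : ∀ (P Q : ℝ), 0 < P → 0 < Q → 0 < P + E → 0 < Q + E →
      2 * P + 2 * Q + M + 2 * E = 1 → M ≤ B → K * (2 * Q) ≤ B - 1 / (2 * (P + E)) - M →
      2 ≤ K → 8 / Q ^ 2 ≤ K → 2 * (1 + (Q + E)) / (P + E) + 2 ≤ K →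
      (1 + (Q + E) / (2 * P)) / (P + E) ^ 2 + 2 ≤ K →
      ∀ a b u v s t : ℝ, 0 < a → 0 < b → 0 < u → 0 < v → 0 < s → 0 < t →
      EqA P Q M E B a b u v s t → s ≤ t → False := by
    intro P Q hP hQ hα hβ hsum hBM hBK hK2 hK8 hK3 hK4 a b u v s t ha hb hu hv hs ht hw hst
    set L : ℝ := (B - 1 / (2 * (P + E)) - M) / (2 * Q) with hLd
    have hL : L * (2 * Q) = B - 1 / (2 * (P + E)) - M := by
      rw [hLd]; field_simp
    have hKL : K ≤ L := by
      rw [hLd, le_div_iff₀ (by positivity)]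
      exact hBK
    have hL2 : 2 ≤ L := by linarith
    have hLQ : 8 ≤ L * Q ^ 2 := by
      have : 8 / Q ^ 2 ≤ L := by linarith
      rwa [div_le_iff₀ (by positivity)] at this
    have h3 : 1 + (Q + E) < (P + E) * (L - 1) / 2 := by
      have h : 2 * (1 + (Q + E)) / (P + E) < L - 1 := by linarith
      rw [div_lt_iff₀ hα] at h
      linarith
    have h4 : 1 + (Q + E) / (2 * P) < (P + E) ^ 2 * (L - 1) := by
      have h : (1 + (Q + E) / (2 * P)) / (P + E) ^ 2 < L - 1 := by linarith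
      rw [div_lt_iff₀ (by positivity)] at h
      linarith
    rcases le_total b a with hba | hba
    · exact core hP hQ hM hα hβ hsum hBM hL hL2 hLQ h3 h4 ha hb hu hv hs ht hw hba hst
    · exact core hP hQ hM hα hβ hsum hBM hL hL2 hLQ h3 h4 hb ha hu hv hs ht hw.swap1 hba hst
  refine ⟨B, ?_, ?_⟩
  · rw [hB]; linarith
  · rintro w ⟨hpos, hw⟩
    have hA : EqA P Q M E B (w 0) (w 1) (w 2) (w 3) (w 4) (w 5) := hw
    rcases le_total (w 4) (w 5) with hst | hst
    · refine main P Q hP hQ hα hβ hsum ?_ ?_ ?_ ?_ ?_ ?_ _ _ _ _ _ _ (hpos 0) (hpos 1) (hpos 2)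
        (hpos 3) (hpos 4) (hpos 5) hA hst
      · rw [hB]; linarith
      · rw [hB]; linarith
      · linarith
      · linarith
      · linarith
      · linarith
    · refine main Q P hQ hP hβ hα (by linarith) ?_ ?_ ?_ ?_ ?_ ?_ _ _ _ _ _ _ (hpos 0) (hpos 1)
        (hpos 3) (hpos 2) (hpos 5) (hpos 4) hA.swap2 hst
      · rw [hB]; linarith
      · rw [hB]; linarith
      · linarith
      · linarith
      · linarith
      · linarith

end Pool.Agent.Helper86.DH
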